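import Pool.Agent.H64.FTM.Targets
import Pool.Agent.H67.EV.OMV
import Pool.Agent.H94.EV.OPS
import Pool.Agent.H40.EV.ORE

/-! Row STP of `ftm_modules`: the star relation. -/

set_option autoImplicit false

open Matrix Pool.Agent.H64.CC Pool.Agent.H2.NL Pool.Agent.H2.KM Pool.Agent.H64.EV Pool.Agent.H64.FTM

namespace Pool.Agent.H79.FTM

/-- contraction of two places of the factor `J` -/
theorem ty_con {K : Type} [Field K] {J E : Type} [Fintype J] [Fintype E]
    (η : Matrix (J ⊕ E) (J ⊕ E) K) (n a : ℕ) (T : List (J ⊕ E) → K)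
    (hT : Ty (n + 2) (a + 2) T) : Ty n a (con η 0 T) := by
  intro w hw hne
  have h0 : ∑ p, ∑ q, η p q * T (p :: q :: w) ≠ 0 := hne
  obtain ⟨p, -, hp⟩ := Finset.exists_ne_zero_of_sum_ne_zero h0
  obtain ⟨q, -, hq⟩ := Finset.exists_ne_zero_of_sum_ne_zero hp
  obtain ⟨u, v, hu, huv⟩ := hT (p :: q :: w) (by simp [hw]) (right_ne_zero_of_mul hq)
  match u, hu with
  | u1 :: u2 :: u, hu =>
    refine ⟨u, v, by simpa using hu, ?_⟩
    simp only [List.map_cons, List.cons_append, List.cons.injEq] at huv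
    exact huv.2.2

theorem ty_con' {K : Type} [Field K] {J E : Type} [Fintype J] [Fintype E] [DecidableEq J]
    [DecidableEq E] (F : OForm K (J ⊕ E)) (n a : ℕ) (T : List (J ⊕ E) → K)
    (hT : Ty (n + 2) (a + 2) T) : Ty n a (F.con' T) := by
  intro w hw hne
  have h0 : ∑ p, F.c p * T (F.st p :: p :: w) ≠ 0 := hne
  obtain ⟨p, -, hp⟩ := Finset.exists_ne_zero_of_sum_ne_zero h0
  obtain ⟨u, v, hu, huv⟩ := hT (F.st p :: p :: w) (by simp [hw]) (right_ne_zero_of_mul hp)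
  match u, hu with
  | u1 :: u2 :: u, hu =>
    refine ⟨u, v, by simpa using hu, ?_⟩
    simp only [List.map_cons, List.cons_append, List.cons.injEq] at huv
    exact huv.2.2

/-- a permutation which fixes the places `≥ a` -/
theorem keeps {m a : ℕ} (τ : Equiv.Perm (Fin m)) (h : ∀ p : Fin m, a ≤ p.1 → τ p = p)
    (p : Fin m) : (τ p).1 < a ↔ p.1 < a := by
  constructor
  · intro h1
    by_contra h2
    rw [h p (not_lt.1 h2)] at h1
    exact h2 h1
  · intro h1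
    by_contra h2
    have h3 := τ.injective (h (τ p) (not_lt.1 h2))
    rw [h3] at h2
    exact h2 h1

theorem keeps_inv {m a : ℕ} (τ : Equiv.Perm (Fin m)) (h : ∀ p : Fin m, (τ p).1 < a ↔ p.1 < a)
    (p : Fin m) : (τ⁻¹ p).1 < a ↔ p.1 < a := by
  have h1 := h (τ⁻¹ p)
  have h2 : τ (τ⁻¹ p) = p := τ.apply_symm_apply p
  rw [h2] at h1
  exact h1.symm

section main

variable {K : Type} [Field K] [CharZero K] {J E : Type} [Fintype J] [DecidableEq J]
  [Fintype E] [DecidableEq E] (F : OForm K J) (G : OForm K E)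
  (A : ℕ → Submodule ℚ (List (J ⊕ E) → K))

/-- permutations of the places and `OT` -/
theorem ot_ac (hPRF : T_PRF) (hTYB : T_TYB) (hBRM : T_BRM) (hM : MCal F G A) (z : K) (b k a : ℕ)
    (ha : a ≤ 2 * k) (x : (Fin (2 * k) → J ⊕ E) → K) (h : OT F G A z b k a x)
    (σ : Equiv.Perm (Fin (2 * k))) (hσ : ∀ p, (σ p).1 < a ↔ p.1 < a) :
    OT F G A z b k a (ac (osum F G).o σ x) := by
  intro y hy hty
  rw [(hPRF K (J ⊕ E) (osum F G) (2 * k)).2.1]
  refine h _ ?_ ?_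
  · rw [(hPRF K (J ⊕ E) (osum F G) (2 * k)).2.2.1]
    exact (hBRM K J E F G A hM z b).2.1 k _ _ hy
  · exact (hTYB K J E (2 * k) a ha).2.1 _ _ _ (keeps_inv σ hσ) hty

omit [CharZero K] in
/-- the moved places -/
theorem mv_ac (hMVA : T_MVA) (m : ℕ) (i a : ℕ) (hi : i + 1 < a) (ha : a ≤ m) :
    ∃ τ : Equiv.Perm (Fin m), (∀ t : List (J ⊕ E) → K,
      ev m (mv (osum F G).o (i + 1) t) = ac (osum F G).o τ (ev m t)) ∧
      ∀ p : Fin m, (τ p).1 < a ↔ p.1 < a := by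
  obtain ⟨τ, h1, -, -, h2⟩ := (hMVA K (J ⊕ E) (osum F G) m (by omega) ⟨i + 1, by omega⟩
    (Nat.succ_pos i)).1
  refine ⟨τ, h1, keeps τ fun p hp => h2 p ?_⟩
  show i + 1 < p.1
  omega

/-- the contractions vanish -/
theorem contr_zero (hPRF : T_PRF) (hMVA : T_MVA) (hTYB : T_TYB) (hBRM : T_BRM)
    (hORE : Pool.Agent.H64.EV.T_ORE) (hOMV : Pool.Agent.H64.EV.T_OMV) (hM : MCal F G A) (z : K)
    (b k a : ℕ) (ha : a + 2 ≤ 2 * (k + 1)) (hFT : FTa F G A z b k a) (x y : List (J ⊕ E) → K)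
    (hx : x ∈ A (k + 1)) (hy : rv y ∈ A (k + 1)) (hTx : Ty (2 * (k + 1)) (a + 2) x)
    (hTy : Ty (2 * (k + 1)) (a + 2) y) (hOT : OT F G A z b (k + 1) (a + 2) (ev (2 * (k + 1)) x))
    (i : ℕ) (hi : i + 1 < a + 2) :
    (osum F G).Pr (2 * k) (con (osum F G).η 0 (mv (osum F G).o (i + 1) x))
      ((osum F G).con' (mv (osum F G).o (i + 1) y)) = 0 := by
  obtain ⟨τ, hτ, hk⟩ := mv_ac (K := K) F G hMVA (2 * (k + 1)) i (a + 2) hi ha
  have ha' : a ≤ 2 * k := by omega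
  have hO := hOMV K (J ⊕ E) (osum F G) A hM.calculus (k + 1) (i + 1) x y (by omega)
  have hmx := hO.1 hx
  have hmy := hO.2.1 hy
  have hT : ∀ t : List (J ⊕ E) → K, Ty (2 * (k + 1)) (a + 2) t →
      Ty (2 * (k + 1)) (a + 2) (mv (osum F G).o (i + 1) t) := by
    intro t ht
    have hB := hTYB K J E (2 * (k + 1)) (a + 2) ha
    rw [hB.1, hτ]
    exact hB.2.1 _ _ _ hk ((hB.1 t).1 ht)
  rw [(hPRF K (J ⊕ E) (osum F G) (2 * k)).1]
  refine hFT _ ⟨_, hM.calculus.con k 0 _ hmx (Nat.zero_le _), rfl⟩ ?_ ?_ _ ?_ ?_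
  · exact ((hTYB K J E (2 * k) a ha').1 _).1 (ty_con _ _ _ _ (hT x hTx))
  · intro y1 hy1 hty1
    obtain ⟨y', hy', hty', hpr⟩ := (hBRM K J E F G A hM z b).2.2 k a _ y1 ha' (hT x hTx) hy1 hty1
    rw [hpr, hτ]
    exact ot_ac F G A hPRF hTYB hBRM hM z b (k + 1) (a + 2) ha _ hOT τ hk y' hy' hty'
  · rw [← (hPRF K (J ⊕ E) (osum F G) (2 * k)).2.2.2]
    refine ⟨_, ?_, rfl⟩
    refine hM.calculus.congr k _ _ (hM.calculus.con k (2 * k) _ hmy le_rfl) fun w hw => ?_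
    have h1 := (hORE K (J ⊕ E) (osum F G) (2 * k) (rv (mv (osum F G).o (i + 1) y))).2 w.reverse
      (by rw [List.length_reverse, hw])
    have h2 : rv (rv (mv (osum F G).o (i + 1) y)) = mv (osum F G).o (i + 1) y := by
      funext v
      show mv (osum F G).o (i + 1) y v.reverse.reverse = _
      rw [List.reverse_reverse]
    rw [h2] at h1
    show (osum F G).con' (mv (osum F G).o (i + 1) y) w.reverse = _
    rw [h1]
    show con (osum F G).η (2 * k) _ w.reverse.reverse = _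
    rw [List.reverse_reverse]
  · exact ((hTYB K J E (2 * k) a ha').1 _).1 (ty_con' _ _ _ _ (hT y hTy))

/-- the star relation for the first place -/
theorem star0 (hPRF : T_PRF) (hMVA : T_MVA) (hTYB : T_TYB) (hBRM : T_BRM)
    (hORE : Pool.Agent.H64.EV.T_ORE) (hOMV : Pool.Agent.H64.EV.T_OMV) (hM : MCal F G A)
    (hR : MRL F G A) (z : K) (b k a : ℕ) (h1 : 1 ≤ a) (ha : a ≤ 2 * k)
    (hFT : 2 ≤ a → FTa F G A z b (k - 1) (a - 2)) (x y : (Fin (2 * k) → J ⊕ E) → K)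
    (hx : x ∈ Af A k) (hTx : Tyf a x) (hOT : OT F G A z b k a x) (hy : rvf y ∈ Af A k)
    (hTy : Tyf a y) (h0 : 0 < 2 * k) :
    ∑ i ∈ Finset.univ.filter (fun i : Fin (2 * k) => i.1 < a ∧ i ≠ ⟨0, h0⟩),
      pr (osum F G) (ac (osum F G).o (Equiv.swap i ⟨0, h0⟩) x) y =
      (1 - F.sd) * pr (osum F G) x y := by
  obtain ⟨x0, hx0, rfl⟩ := hx
  obtain ⟨t, ht, hty⟩ := hy
  have hyt : ev (2 * k) (rv t) = y := by
    rw [(hPRF K (J ⊕ E) (osum F G) (2 * k)).2.2.2, hty]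
    funext w
    show y (fun i => w i.rev.rev) = y w
    simp only [Fin.rev_rev]
  have hrt : rv (rv t) = t := by
    funext v
    show t v.reverse.reverse = _
    rw [List.reverse_reverse]
  have hB := hTYB K J E (2 * k) a ha
  have hTx0 : Ty (2 * k) a x0 := (hB.1 x0).2 hTx
  have hTy0 : Ty (2 * k) a (rv t) := (hB.1 (rv t)).2 (by rw [hyt]; exact hTy)
  have hrel := hR k a x0 (rv t) (by omega) h1 ha hx0 (by rw [hrt]; exact ht) hTx0 hTy0
  rw [(hPRF K (J ⊕ E) (osum F G) (2 * k)).1, hyt] at hrel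
  have hsum : ∑ i ∈ Finset.range (a - 1),
      ((osum F G).Pr (2 * k) (sw (osum F G).o 0 (mv (osum F G).o (i + 1) x0))
        (mv (osum F G).o (i + 1) (rv t)) -
      (osum F G).Pr (2 * k - 2) (con (osum F G).η 0 (mv (osum F G).o (i + 1) x0))
        ((osum F G).con' (mv (osum F G).o (i + 1) (rv t)))) =
      ∑ i ∈ Finset.univ.filter (fun i : Fin (2 * k) => i.1 < a ∧ i ≠ ⟨0, h0⟩),
        pr (osum F G) (ac (osum F G).o (Equiv.swap i ⟨0, h0⟩) (ev (2 * k) x0)) y := by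
    refine Finset.sum_bij' (fun i hi => ⟨i + 1, by have := Finset.mem_range.1 hi; omega⟩)
      (fun i _ => i.1 - 1) ?_ ?_ ?_ ?_ ?_
    · intro i hi
      have hi' := Finset.mem_range.1 hi
      refine Finset.mem_filter.2 ⟨Finset.mem_univ _, ?_, ?_⟩
      · show i + 1 < a
        omega
      · intro h
        have := congrArg Fin.val h
        simp at this
    · intro i hi
      obtain ⟨-, h2, h3⟩ := Finset.mem_filter.1 hi
      have h4 : i.1 ≠ 0 := fun h => h3 (Fin.ext h)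
      rw [Finset.mem_range]
      omega
    · intro i hi
      show i + 1 - 1 = i
      omega
    · intro i hi
      obtain ⟨-, h2, h3⟩ := Finset.mem_filter.1 hi
      have h4 : i.1 ≠ 0 := fun h => h3 (Fin.ext h)
      refine Fin.ext ?_
      show i.1 - 1 + 1 = i.1
      omega
    · intro i hi
      have hi' := Finset.mem_range.1 hi
      have h5 := (hMVA K (J ⊕ E) (osum F G) (2 * k) h0 ⟨i + 1, by omega⟩ (Nat.succ_pos i)).2 x0
        (rv t)
      rw [hyt] at h5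
      have h6 : (osum F G).Pr (2 * k - 2) (con (osum F G).η 0 (mv (osum F G).o (i + 1) x0))
          ((osum F G).con' (mv (osum F G).o (i + 1) (rv t))) = 0 := by
        obtain ⟨k', rfl⟩ : ∃ k', k = k' + 1 := ⟨k - 1, by omega⟩
        obtain ⟨a', rfl⟩ : ∃ a', a = a' + 2 := ⟨a - 2, by omega⟩
        exact contr_zero F G A hPRF hMVA hTYB hBRM hORE hOMV hM z b k' a' ha (hFT (by omega)) x0
          (rv t) hx0 (by rw [hrt]; exact ht) hTx0 hTy0 hOT i (by omega)
      rw [h6, sub_zero, Equiv.swap_comm]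
      exact h5
  rw [hsum] at hrel
  linear_combination hrel

end main

theorem pf_STP (hACT : T_ACT) (hAFA : T_AFA) (hPRF : T_PRF) (hMVA : T_MVA) (hTYB : T_TYB)
    (hBRM : T_BRM) (hORE : Pool.Agent.H64.EV.T_ORE) : Pool.Agent.H64.FTM.T_STP := by
  intro K _ _ J E _ _ _ _ F G A hM hR z b k a h1 ha hFT x hx hTx hOT j hj y hy hTy
  have hOMV := Pool.Agent.H67.EV.pf_OMV Pool.Agent.H94.EV.pf_OPS hORE
  have h0 : 0 < 2 * k := by omega
  obtain ⟨s, hs⟩ : ∃ s, s = Equiv.swap (⟨0, h0⟩ : Fin (2 * k)) j := ⟨_, rfl⟩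
  have hk : ∀ p : Fin (2 * k), (s p).1 < a ↔ p.1 < a := by
    refine keeps s fun p hp => ?_
    rw [hs]
    refine Equiv.swap_apply_of_ne_of_ne ?_ ?_
    · intro h
      rw [h] at hp
      simp at hp
      omega
    · intro h
      rw [h] at hp
      omega
  have hss : s * s = 1 := by rw [hs, Equiv.swap_mul_self]
  have hinv : s⁻¹ = s := by rw [hs, Equiv.swap_inv]
  have hC := hACT K (J ⊕ E) (osum F G).o (2 * k)
  have hP := hPRF K (J ⊕ E) (osum F G) (2 * k)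
  have hB := hTYB K J E (2 * k) a ha
  have hF := hAFA K (J ⊕ E) (osum F G).o (osum F G).η (osum F G).ω A hM.calculus
  have hpair : ∀ f g : (Fin (2 * k) → J ⊕ E) → K,
      pr (osum F G) (ac (osum F G).o s f) (ac (osum F G).o s g) = pr (osum F G) f g := by
    intro f g
    rw [hP.2.1, hinv, ← hC.1, hss, hC.2.1]
  have hst := star0 F G A hPRF hMVA hTYB hBRM hORE hOMV hM hR z b k a h1 ha hFT
    (ac (osum F G).o s x) (ac (osum F G).o s y) (hF.2 k s x hx) (hB.2.1 _ _ _ hk hTx)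
    (ot_ac F G A hPRF hTYB hBRM hM z b k a ha x hOT s hk)
    (by rw [hP.2.2.1]; exact hF.2 k _ _ hy) (hB.2.1 _ _ _ hk hTy) h0
  rw [hpair] at hst
  rw [← hst]
  symm
  refine Finset.sum_bij' (fun i _ => s i) (fun i _ => s i) ?_ ?_ ?_ ?_ ?_
  · intro i hi
    obtain ⟨-, h2, h3⟩ := Finset.mem_filter.1 hi
    refine Finset.mem_filter.2 ⟨Finset.mem_univ _, (hk i).2 h2, fun h => h3 ?_⟩
    have h4 : s ⟨0, h0⟩ = j := by rw [hs, Equiv.swap_apply_left]
    exact s.injective (h.trans h4.symm)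
  · intro i hi
    obtain ⟨-, h2, h3⟩ := Finset.mem_filter.1 hi
    refine Finset.mem_filter.2 ⟨Finset.mem_univ _, (hk i).2 h2, fun h => h3 ?_⟩
    have h4 : s j = ⟨0, h0⟩ := by rw [hs, Equiv.swap_apply_right]
    exact s.injective (h.trans h4.symm)
  · intro i _
    show (s * s) i = i
    rw [hss]
    rfl
  · intro i _
    show (s * s) i = i
    rw [hss]
    rfl
  · intro i _
    have h4 : s ⟨0, h0⟩ = j := by rw [hs, Equiv.swap_apply_left]
    have h5 : Equiv.swap (s i) j = s * Equiv.swap i ⟨0, h0⟩ * s := by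
      have h6 := Equiv.swap_apply_apply s i ⟨0, h0⟩
      rw [h4, hinv] at h6
      exact h6
    have h7 : Equiv.swap i ⟨0, h0⟩ * s = s * Equiv.swap (s i) j := by
      rw [h5, ← mul_assoc, ← mul_assoc, hss, one_mul]
    rw [← hC.1, h7, hC.1, hpair]

end Pool.Agent.H79.FTM
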